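import Pool.Agent.Lib.MP_f15a68_nt.Small

/-!
The absolute logarithmic Weil height of Mathlib agrees, for algebraic integers, with the
normalised logarithmic Mahler measure of the minimal polynomial.
-/

open Polynomial IntermediateField

namespace Pool.Agent.Lib.MP_f15a68_nt

theorem prod_infinitePlace {F : Type*} [Field F] [NumberField F] (x : F) :
    ∏ v : NumberField.InfinitePlace F, max (v x) 1 ^ v.mult =
      ∏ φ : F →+* ℂ, max ‖φ x‖ 1 := by
  classical
  rw [← Finset.prod_fiberwise Finset.univ NumberField.InfinitePlace.mk (fun φ => max ‖φ x‖ 1)]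
  refine Finset.prod_congr rfl fun w _ => ?_
  have (φ) (hφ : φ ∈ ({φ | NumberField.InfinitePlace.mk φ = w} : Finset (F →+* ℂ))) :
      max ‖φ x‖ 1 = max (w x) 1 := by
    rw [← (Finset.mem_filter.mp hφ).2, NumberField.InfinitePlace.apply]
  rw [Finset.prod_congr rfl this, Finset.prod_const, NumberField.InfinitePlace.card_filter_mk_eq]

theorem finite_part {F : Type*} [Field F] [NumberField F] (x : F) (hx : IsIntegral ℤ x) :
    ∏ᶠ v : NumberField.FinitePlace F, max (v x) 1 = 1 := by
  apply finprod_eq_one_of_forall_eq_one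
  intro v
  apply max_eq_right
  obtain ⟨y, rfl⟩ : ∃ y : NumberField.RingOfIntegers F, (y : F) = x := ⟨⟨x, hx⟩, rfl⟩
  rw [← NumberField.FinitePlace.norm_embedding_eq]
  exact NumberField.FinitePlace.norm_le_one F v.maximalIdeal y

theorem absLogHeight_eq_ht (α : L) (hα : IsIntegral ℤ α) :
    NumberField.absLogHeight₁ α = ht α := by
  classical
  have hx : IsIntegral ℚ α := Algebra.IsIntegral.isIntegral α
  unfold NumberField.absLogHeight₁ NumberField.absMulHeight₁
  rw [dif_pos hx]
  have hfd : FiniteDimensional ℚ ℚ⟮α⟯ := adjoin.finiteDimensional hx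
  have hnf : NumberField ℚ⟮α⟯ := {}
  set x := AdjoinSimple.gen ℚ α with hxdef
  have hxint : IsIntegral ℤ x := by
    have h1 : IsIntegral ℤ (algebraMap ℚ⟮α⟯ L x) := by
      rw [hxdef, AdjoinSimple.algebraMap_gen]; exact hα
    exact (isIntegral_algebraMap_iff (algebraMap ℚ⟮α⟯ L).injective).mp h1
  have hmul : Height.mulHeight₁ x = ∏ φ : ℚ⟮α⟯ →+* ℂ, max ‖φ x‖ 1 := by
    rw [NumberField.mulHeight₁_eq, finite_part x hxint, mul_one, prod_infinitePlace]
  have hroots : ∏ φ : ℚ⟮α⟯ →+* ℂ, max ‖φ x‖ 1 =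
      (((minpoly ℚ α).map (algebraMap ℚ ℂ)).roots.map (fun a ↦ max 1 ‖a‖)).prod := by
    have hsep : (minpoly ℚ α).Separable := (minpoly.irreducible hx).separable
    have hnodup : ((minpoly ℚ α).map (algebraMap ℚ ℂ)).roots.Nodup := nodup_roots hsep.map
    have hinj : Function.Injective (fun φ : ℚ⟮α⟯ →+* ℂ => φ x) := by
      intro φ ψ h
      have h1 : (RingHom.equivRatAlgHom ℚ⟮α⟯ ℂ φ) = (RingHom.equivRatAlgHom ℚ⟮α⟯ ℂ ψ) := by
        apply (adjoin.powerBasis hx).algHom_ext
        rw [adjoin.powerBasis_gen]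
        exact h
      exact (RingHom.equivRatAlgHom ℚ⟮α⟯ ℂ).injective h1
    have himg : (Finset.univ.image (fun φ : ℚ⟮α⟯ →+* ℂ => φ x)) =
        ((minpoly ℚ α).map (algebraMap ℚ ℂ)).roots.toFinset := by
      ext y
      simp only [Finset.mem_image, Finset.mem_univ, true_and, Multiset.mem_toFinset]
      constructor
      · rintro ⟨φ, rfl⟩
        rw [mem_roots (((minpoly.monic hx).map _).ne_zero), IsRoot.def, eval_map_algebraMap]
        have h1 : aeval x (minpoly ℚ α) = 0 := by
          rw [← minpoly_gen ℚ α]; exact minpoly.aeval _ _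
        have h2 : aeval (φ x) (minpoly ℚ α) = φ (aeval x (minpoly ℚ α)) := by
          have := aeval_algHom_apply (RingHom.equivRatAlgHom ℚ⟮α⟯ ℂ φ) x (minpoly ℚ α)
          exact this
        rw [h2, h1, map_zero]
      · intro hy
        let ψ := (algHomAdjoinIntegralEquiv ℚ hx).symm ⟨y, hy⟩
        refine ⟨ψ.toRingHom, ?_⟩
        exact algHomAdjoinIntegralEquiv_symm_apply_gen ℚ hx ⟨y, hy⟩
    calc ∏ φ : ℚ⟮α⟯ →+* ℂ, max ‖φ x‖ 1
        = ∏ y ∈ Finset.univ.image (fun φ : ℚ⟮α⟯ →+* ℂ => φ x), max ‖y‖ 1 := by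
          rw [Finset.prod_image (fun a _ b _ h => hinj h)]
      _ = ∏ y ∈ ((minpoly ℚ α).map (algebraMap ℚ ℂ)).roots.toFinset, max ‖y‖ 1 := by rw [himg]
      _ = _ := by
          rw [Finset.prod, Multiset.toFinset_val, hnodup.dedup]
          simp only [max_comm]
  have hmahler : Height.mulHeight₁ x = ((minpoly ℚ α).map (algebraMap ℚ ℂ)).mahlerMeasure := by
    rw [hmul, hroots, mahlerMeasure_eq_leadingCoeff_mul_prod_roots,
      ((minpoly.monic hx).map _).leadingCoeff, norm_one, one_mul]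
  have hpos : 0 < Height.mulHeight₁ x := by
    rw [hmahler]
    exact lt_of_lt_of_le one_pos (one_le_mahler (minpoly.monic hx))
  rw [Real.log_rpow hpos, hmahler, ht, adjoin.finrank hx]
  field_simp

end Pool.Agent.Lib.MP_f15a68_nt
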