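import Pool.Agent.Lib.MP_f15a68_nt.Poly

/-!
The polynomials `H j` have `20 * 5 ^ j` distinct roots in `ℤ_[5]`.
-/

open Polynomial

namespace Pool.Agent.Lib.MP_f15a68_nt

instance fact5 : Fact (Nat.Prime 5) := ⟨by norm_num⟩

/-- An isometric self-map of a compact metric space is onto. -/
theorem isometry_surj {X : Type*} [MetricSpace X] [CompactSpace X] (f : X → X)
    (hf : Isometry f) : Function.Surjective f := by
  by_contra hns
  rw [Function.Surjective] at hns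
  push Not at hns
  obtain ⟨y, hy⟩ := hns
  have hcl : IsClosed (Set.range f) := (isCompact_range hf.continuous).isClosed
  have hy' : y ∈ (Set.range f)ᶜ := by
    rintro ⟨a, ha⟩; exact hy a ha
  obtain ⟨δ, hδ, hball⟩ := Metric.isOpen_iff.mp hcl.isOpen_compl y hy'
  have hfar : ∀ a, δ ≤ dist (f a) y := by
    intro a
    by_contra hlt
    push Not at hlt
    exact hball (Metric.mem_ball.mpr hlt) ⟨a, rfl⟩
  have hiter : ∀ n : ℕ, Isometry (f^[n]) := by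
    intro n
    induction n with
    | zero => exact isometry_id
    | succ n ih => rw [Function.iterate_succ]; exact ih.comp hf
  have hsep : ∀ m n : ℕ, m < n → δ ≤ dist (f^[n] y) (f^[m] y) := by
    intro m n hmn
    obtain ⟨k, rfl⟩ := Nat.exists_eq_add_of_lt hmn
    rw [show m + k + 1 = m + (k + 1) by ring, Function.iterate_add_apply, (hiter m).dist_eq,
      Function.iterate_succ_apply']
    exact hfar _
  obtain ⟨a, φ, hφ, hlim⟩ := CompactSpace.tendsto_subseq (fun n => f^[n] y)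
  have hc := hlim.cauchySeq
  rw [Metric.cauchySeq_iff'] at hc
  obtain ⟨N, hN⟩ := hc δ hδ
  have h1 := hN (N + 1) (by omega)
  have h2 := hsep (φ N) (φ (N + 1)) (hφ (by omega))
  simp only [Function.comp] at h1
  linarith

/-- abbreviation for the `5`-adic numbers -/
abbrev K := ℚ_[5]

theorem norm5 : ‖(5 : K)‖ = 1 / 5 := by
  have := Padic.norm_p (p := 5)
  simpa using this

theorem norm_lt_one_le (x : K) (h : ‖x‖ < 1) : ‖x‖ ≤ 1 / 5 := by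
  rcases eq_or_ne x 0 with rfl | hx
  · simp
  have h0 : ‖x‖ ≤ (5 : ℝ) ^ (-1 : ℤ) := by
    have := (Padic.norm_le_pow_iff_norm_lt_pow_add_one (p := 5) x (-1)).mpr (by simpa using h)
    simpa using this
  simpa using h0

theorem norm_gt_eq_one (x : K) (h : ‖x‖ ≤ 1) (h2 : 1 / 5 < ‖x‖) : ‖x‖ = 1 := by
  by_contra hne
  have := norm_lt_one_le x (lt_of_le_of_ne h hne)
  linarith

theorem add_le_max (x y : K) : ‖x + y‖ ≤ max ‖x‖ ‖y‖ := Padic.nonarchimedean x y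

theorem sub_le_max (x y : K) : ‖x - y‖ ≤ max ‖x‖ ‖y‖ := by
  have := add_le_max x (-y)
  rwa [norm_neg, ← sub_eq_add_neg] at this

theorem norm_sub_eq_of_lt (x y : K) (h : ‖x‖ < ‖y‖) : ‖x - y‖ = ‖y‖ := by
  have h1 : ‖x - y‖ ≤ ‖y‖ := (sub_le_max x y).trans (max_le h.le le_rfl)
  have h2 : ‖y‖ ≤ max ‖x‖ ‖x - y‖ := by
    have := sub_le_max x (x - y)
    simpa using this
  rcases le_max_iff.mp h2 with h3 | h3
  · exact absurd h3 (not_le.mpr h)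
  · exact le_antisymm h1 h3

/-- Fermat's little theorem in the `5`-adic integers. -/
theorem fermat5 (x : K) (hx : ‖x‖ ≤ 1) : ‖x ^ 5 - x‖ ≤ 1 / 5 := by
  obtain ⟨y, rfl⟩ : ∃ y : ℤ_[5], (y : K) = x := ⟨⟨x, hx⟩, rfl⟩
  apply norm_lt_one_le
  have h1 : PadicInt.toZMod (y ^ 5 - y) = 0 := by
    rw [map_sub, map_pow, ZMod.pow_card, sub_self]
  have h2 : (y ^ 5 - y) ∈ RingHom.ker (PadicInt.toZMod (p := 5)) := h1
  rw [PadicInt.ker_toZMod] at h2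
  have h3 : ‖y ^ 5 - y‖ < 1 := PadicInt.mem_nonunits.mp h2
  have h4 : ((y ^ 5 - y : ℤ_[5]) : K) = (y : K) ^ 5 - y := by push_cast; rfl
  rw [← h4]
  exact h3

theorem unit4 (z : K) (hz : ‖z‖ = 1) : ‖z ^ 4 - 1‖ ≤ 1 / 5 := by
  have h := fermat5 z hz.le
  have e : z ^ 5 - z = z * (z ^ 4 - 1) := by ring
  rw [e, norm_mul, hz, one_mul] at h
  exact h

theorem pow5_sub (a b : K) (ha : ‖a‖ ≤ 1) (hb : ‖b‖ ≤ 1) (hab : ‖a - b‖ ≤ 1 / 5) :
    ‖a ^ 5 - b ^ 5‖ ≤ ‖a - b‖ / 5 := by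
  have e : a ^ 5 - b ^ 5 = (a - b) * ((a - b) * (a ^ 3 + 2 * a ^ 2 * b + 3 * a * b ^ 2 + 4 * b ^ 3)
      + 5 * b ^ 4) := by ring
  have hn : ∀ n : ℕ, ‖(n : K)‖ ≤ 1 := fun n => by
    simpa using Padic.norm_int_le_one (p := 5) (n : ℤ)
  have hint : ‖a ^ 3 + 2 * a ^ 2 * b + 3 * a * b ^ 2 + 4 * b ^ 3‖ ≤ 1 := by
    obtain ⟨a', rfl⟩ : ∃ y : ℤ_[5], (y : K) = a := ⟨⟨a, ha⟩, rfl⟩
    obtain ⟨b', rfl⟩ : ∃ y : ℤ_[5], (y : K) = b := ⟨⟨b, hb⟩, rfl⟩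
    have := PadicInt.norm_le_one (a' ^ 3 + 2 * a' ^ 2 * b' + 3 * a' * b' ^ 2 + 4 * b' ^ 3)
    rw [PadicInt.norm_def] at this
    push_cast at this
    exact this
  have h2 : ‖(a - b) * (a ^ 3 + 2 * a ^ 2 * b + 3 * a * b ^ 2 + 4 * b ^ 3)
      + 5 * b ^ 4‖ ≤ 1 / 5 := by
    refine (add_le_max _ _).trans (max_le ?_ ?_)
    · rw [norm_mul]
      have h3 : ‖a - b‖ * ‖a ^ 3 + 2 * a ^ 2 * b + 3 * a * b ^ 2 + 4 * b ^ 3‖
          ≤ (1 / 5) * 1 := by gcongr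
      linarith
    · rw [norm_mul, norm5, norm_pow]
      have : ‖b‖ ^ 4 ≤ 1 := pow_le_one₀ (norm_nonneg _) hb
      linarith
  rw [e, norm_mul]
  calc ‖a - b‖ * _ ≤ ‖a - b‖ * (1 / 5) := by gcongr
    _ = ‖a - b‖ / 5 := by ring

theorem pow_sub_le (a b : K) (ha : ‖a‖ ≤ 1) (hb : ‖b‖ ≤ 1) (n : ℕ) :
    ‖a ^ n - b ^ n‖ ≤ ‖a - b‖ := by
  obtain ⟨a', rfl⟩ : ∃ y : ℤ_[5], (y : K) = a := ⟨⟨a, ha⟩, rfl⟩
  obtain ⟨b', rfl⟩ : ∃ y : ℤ_[5], (y : K) = b := ⟨⟨b, hb⟩, rfl⟩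
  obtain ⟨c, hc⟩ := sub_dvd_pow_sub_pow a' b' n
  have h1 : (a' : K) ^ n - (b' : K) ^ n = ((a' : K) - b') * c := by
    have := congrArg (fun t : ℤ_[5] => (t : K)) hc
    push_cast at this
    exact this
  rw [h1, norm_mul]
  have : ‖(c : K)‖ ≤ 1 := c.2
  nlinarith [norm_nonneg ((a' : K) - b')]

/-- `z = (x ^ 5 - x) / 5` -/
noncomputable def Z (x : K) : K := (x ^ 5 - x) / 5

/-- `w = z ^ 4` -/
noncomputable def W (x : K) : K := (Z x) ^ 4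

/-- the functions `y_j` -/
noncomputable def Y : ℕ → K → K
  | 0, x => (W x - 1) / 5
  | (j + 1), x => ((Y j x) ^ 5 - (W x) ^ (3 * 5 ^ j) * Y j x) / 5

theorem Z_le (x : K) (hx : ‖x‖ ≤ 1) : ‖Z x‖ ≤ 1 := by
  unfold Z
  rw [norm_div, norm5]
  have := fermat5 x hx
  rw [div_le_iff₀ (by norm_num)]
  linarith

theorem W_sub_one (x : K) (hz : ‖Z x‖ = 1) : ‖W x - 1‖ ≤ 1 / 5 := unit4 _ hz

theorem W_norm (x : K) (hz : ‖Z x‖ = 1) : ‖W x‖ = 1 := by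
  unfold W; rw [norm_pow, hz, one_pow]

theorem Y_le (x : K) (hz : ‖Z x‖ = 1) (j : ℕ) : ‖Y j x‖ ≤ 1 := by
  induction j with
  | zero =>
    show ‖(W x - 1) / 5‖ ≤ 1
    rw [norm_div, norm5, div_le_iff₀ (by norm_num)]
    have := W_sub_one x hz
    linarith
  | succ j ih =>
    show ‖((Y j x) ^ 5 - (W x) ^ (3 * 5 ^ j) * Y j x) / 5‖ ≤ 1
    rw [norm_div, norm5, div_le_iff₀ (by norm_num)]
    have e : (Y j x) ^ 5 - (W x) ^ (3 * 5 ^ j) * Y j x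
        = ((Y j x) ^ 5 - Y j x) - ((W x) ^ (3 * 5 ^ j) - 1 ^ (3 * 5 ^ j)) * Y j x := by
      ring
    rw [e]
    refine (sub_le_max _ _).trans (max_le ?_ ?_)
    · have := fermat5 _ ih
      linarith
    · rw [norm_mul]
      have h1 := pow_sub_le (W x) 1 (W_norm x hz).le (by simp) (3 * 5 ^ j)
      have h2 := W_sub_one x hz
      have h3 := norm_nonneg ((W x) ^ (3 * 5 ^ j) - 1 ^ (3 * 5 ^ j))
      nlinarith [norm_nonneg (Y j x)]

theorem Z_sub (x x' : K) (hx : ‖x‖ ≤ 1) (hx' : ‖x'‖ ≤ 1) (h : ‖x - x'‖ ≤ 1 / 5) :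
    ‖Z x - Z x'‖ = 5 * ‖x - x'‖ := by
  have e : Z x - Z x' = ((x ^ 5 - x' ^ 5) - (x - x')) / 5 := by unfold Z; ring
  rw [e, norm_div, norm5]
  rcases eq_or_ne (‖x - x'‖) 0 with h0 | h0
  · have : x = x' := by rwa [norm_eq_zero, sub_eq_zero] at h0
    subst this; simp
  have hpos : 0 < ‖x - x'‖ := lt_of_le_of_ne (norm_nonneg _) (Ne.symm h0)
  have h1 := pow5_sub x x' hx hx' h
  rw [norm_sub_eq_of_lt _ _ (by linarith)]
  ring

theorem W_sub (x x' : K) (hx : ‖x‖ ≤ 1) (hx' : ‖x'‖ ≤ 1) (hz : ‖Z x‖ = 1) (hz' : ‖Z x'‖ = 1)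
    (h : ‖x - x'‖ ≤ 1 / 25) :
    ‖W x - W x'‖ = 5 * ‖x - x'‖ := by
  have hzz := Z_sub x x' hx hx' (by linarith)
  unfold W
  set z := Z x
  set z' := Z x'
  have e : z ^ 4 - z' ^ 4 = (z - z') * ((z - z') * (z ^ 2 + 2 * z * z' + 3 * z' ^ 2)
      - (-(4 * z' ^ 3))) := by ring
  have hint : ‖z ^ 2 + 2 * z * z' + 3 * z' ^ 2‖ ≤ 1 := by
    obtain ⟨a', ha'⟩ : ∃ y : ℤ_[5], (y : K) = z := ⟨⟨z, hz.le⟩, rfl⟩
    obtain ⟨b', hb'⟩ : ∃ y : ℤ_[5], (y : K) = z' := ⟨⟨z', hz'.le⟩, rfl⟩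
    have := PadicInt.norm_le_one (a' ^ 2 + 2 * a' * b' + 3 * b' ^ 2)
    rw [PadicInt.norm_def] at this
    push_cast at this
    rw [← ha', ← hb']
    exact this
  have h4 : ‖(4 : K)‖ = 1 := by
    apply norm_gt_eq_one
    · simpa using Padic.norm_int_le_one (p := 5) 4
    · by_contra hcon
      push Not at hcon
      have h1 : ‖(1 : K)‖ ≤ 1 / 5 := by
        have : (1 : K) = 5 - 4 := by norm_num
        rw [this]
        exact (sub_le_max _ _).trans (max_le norm5.le hcon)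
      rw [norm_one] at h1
      norm_num at h1
  have h5 : ‖-(4 * z' ^ 3)‖ = 1 := by rw [norm_neg, norm_mul, norm_pow, h4, hz']; norm_num
  have h6 : ‖(z - z') * (z ^ 2 + 2 * z * z' + 3 * z' ^ 2)‖ ≤ 1 / 5 := by
    rw [norm_mul]
    have : ‖z - z'‖ ≤ 1 / 5 := by rw [hzz]; linarith
    nlinarith [norm_nonneg (z - z'), norm_nonneg (z ^ 2 + 2 * z * z' + 3 * z' ^ 2)]
  have h7 := norm_sub_eq_of_lt ((z - z') * (z ^ 2 + 2 * z * z' + 3 * z' ^ 2)) (-(4 * z' ^ 3))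
    (by rw [h5]; linarith)
  rw [e, norm_mul, h7, h5, hzz, mul_one]

theorem Y_sub (x x' : K) (hx : ‖x‖ ≤ 1) (hx' : ‖x'‖ ≤ 1) (hz : ‖Z x‖ = 1) (hz' : ‖Z x'‖ = 1)
    (j : ℕ) (h : ‖x - x'‖ ≤ (1 / 5) ^ (j + 2)) :
    ‖Y j x - Y j x'‖ = 5 ^ (j + 2) * ‖x - x'‖ := by
  induction j with
  | zero =>
    have h' : ‖x - x'‖ ≤ 1 / 25 := by
      have : ((1 : ℝ) / 5) ^ (0 + 2) = 1 / 25 := by norm_num
      linarith
    have e : Y 0 x - Y 0 x' = (W x - W x') / 5 := by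
      show (W x - 1) / 5 - (W x' - 1) / 5 = _
      ring
    rw [e, norm_div, norm5, W_sub x x' hx hx' hz hz' h']
    ring
  | succ j ih =>
    have hj : ((1 : ℝ) / 5) ^ (j + 1 + 2) = (1 / 5) ^ (j + 2) * (1 / 5) := by ring
    have hpj : (0 : ℝ) < (1 / 5) ^ (j + 2) := by positivity
    have h' : ‖x - x'‖ ≤ (1 / 5) ^ (j + 2) := by
      rw [hj] at h; linarith
    have hY := ih h'
    set a := Y j x with ha
    set b := Y j x' with hb
    have haa : ‖a‖ ≤ 1 := Y_le x hz j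
    have hbb : ‖b‖ ≤ 1 := Y_le x' hz' j
    have hmul : (5 : ℝ) ^ (j + 2) * (1 / 5) ^ (j + 2) = 1 := by
      rw [← mul_pow]; norm_num
    have hpj5 : (0 : ℝ) < 5 ^ (j + 2) := by positivity
    have hab : ‖a - b‖ ≤ 1 / 5 := by
      rw [hY]
      calc (5 : ℝ) ^ (j + 2) * ‖x - x'‖ ≤ 5 ^ (j + 2) * ((1 / 5) ^ (j + 1 + 2)) := by gcongr
        _ = (5 ^ (j + 2) * (1 / 5) ^ (j + 2)) * (1 / 5) := by rw [hj]; ring
        _ = 1 / 5 := by rw [hmul]; ring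
    have e : Y (j + 1) x - Y (j + 1) x' =
        (((a ^ 5 - b ^ 5) - (W x ^ (3 * 5 ^ j) - W x' ^ (3 * 5 ^ j)) * b)
          - W x ^ (3 * 5 ^ j) * (a - b)) / 5 := by
      show (a ^ 5 - (W x) ^ (3 * 5 ^ j) * a) / 5 - (b ^ 5 - (W x') ^ (3 * 5 ^ j) * b) / 5 = _
      ring
    rw [e, norm_div, norm5]
    rcases eq_or_ne (‖x - x'‖) 0 with h0 | h0
    · have : x = x' := by rwa [norm_eq_zero, sub_eq_zero] at h0
      subst this; simp [ha, hb]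
    have hpos : 0 < ‖x - x'‖ := lt_of_le_of_ne (norm_nonneg _) (Ne.symm h0)
    have habpos : 0 < ‖a - b‖ := by rw [hY]; positivity
    have h1 := pow5_sub a b haa hbb hab
    have hle25 : ‖x - x'‖ ≤ 1 / 25 := by
      have : ((1 : ℝ) / 5) ^ (j + 2) ≤ (1 / 5) ^ 2 :=
        pow_le_pow_of_le_one (by norm_num) (by norm_num) (by omega)
      have e2 : ((1 : ℝ) / 5) ^ 2 = 1 / 25 := by norm_num
      linarith
    have hW := W_sub x x' hx hx' hz hz' hle25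
    have h2 := pow_sub_le (W x) (W x') (W_norm x hz).le (W_norm x' hz').le (3 * 5 ^ j)
    have h3 : ‖(W x ^ (3 * 5 ^ j) - W x' ^ (3 * 5 ^ j)) * b‖ ≤ ‖a - b‖ / 5 := by
      rw [norm_mul]
      have h25 : (25 : ℝ) ≤ 5 ^ (j + 2) := by
        have : (5 : ℝ) ^ 2 ≤ 5 ^ (j + 2) := pow_le_pow_right₀ (by norm_num) (by omega)
        linarith
      have h4 : 5 * ‖x - x'‖ ≤ ‖a - b‖ / 5 := by
        rw [hY]
        have : 25 * ‖x - x'‖ ≤ 5 ^ (j + 2) * ‖x - x'‖ := by gcongr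
        linarith
      have h5 : ‖W x ^ (3 * 5 ^ j) - W x' ^ (3 * 5 ^ j)‖ ≤ ‖a - b‖ / 5 := by
        rw [hW] at h2; linarith
      calc _ ≤ ‖a - b‖ / 5 * 1 := by gcongr
        _ = _ := by ring
    have h6 : ‖(a ^ 5 - b ^ 5) - (W x ^ (3 * 5 ^ j) - W x' ^ (3 * 5 ^ j)) * b‖ ≤ ‖a - b‖ / 5 :=
      (sub_le_max _ _).trans (max_le h1 h3)
    have h7 : ‖W x ^ (3 * 5 ^ j) * (a - b)‖ = ‖a - b‖ := by
      rw [norm_mul, norm_pow, W_norm x hz, one_pow, one_mul]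
    rw [norm_sub_eq_of_lt _ _ (by rw [h7]; linarith), h7, hY]
    ring

theorem exists_root_near (j : ℕ) (b : K) (hb : ‖b‖ ≤ 1) (hz : ‖Z b‖ = 1) :
    ∃ x : K, ‖x‖ ≤ 1 ∧ ‖x - b‖ ≤ (1 / 5) ^ (j + 2) ∧ ‖Z x‖ = 1 ∧ Y j x = 0 := by
  have hpow : ‖(5 : K) ^ (j + 2)‖ = (1 / 5) ^ (j + 2) := by rw [norm_pow, norm5]
  have hsmall : ((1 : ℝ) / 5) ^ (j + 2) ≤ 1 / 25 := by
    have : ((1 : ℝ) / 5) ^ (j + 2) ≤ (1 / 5) ^ 2 :=
      pow_le_pow_of_le_one (by norm_num) (by norm_num) (by omega)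
    have e2 : ((1 : ℝ) / 5) ^ 2 = 1 / 25 := by norm_num
    linarith
  have hmem : ∀ t : ℤ_[5], ‖b + 5 ^ (j + 2) * (t : K)‖ ≤ 1 ∧
      ‖(b + 5 ^ (j + 2) * (t : K)) - b‖ ≤ (1 / 5) ^ (j + 2) ∧
      ‖Z (b + 5 ^ (j + 2) * (t : K))‖ = 1 := by
    intro t
    have ht : ‖(t : K)‖ ≤ 1 := t.2
    have h1 : ‖(5 : K) ^ (j + 2) * (t : K)‖ ≤ (1 / 5) ^ (j + 2) := by
      rw [norm_mul, hpow]
      calc _ ≤ ((1 : ℝ) / 5) ^ (j + 2) * 1 := by gcongr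
        _ = _ := by ring
    have h2 : ‖b + 5 ^ (j + 2) * (t : K)‖ ≤ 1 :=
      (add_le_max _ _).trans (max_le hb (by linarith))
    have h3 : (b + 5 ^ (j + 2) * (t : K)) - b = 5 ^ (j + 2) * (t : K) := by ring
    refine ⟨h2, by rw [h3]; exact h1, ?_⟩
    have h4 := Z_sub _ b h2 hb (by rw [h3]; linarith)
    rw [h3] at h4
    have h5 : ‖Z (b + 5 ^ (j + 2) * (t : K)) - Z b‖ < ‖Z b‖ := by
      rw [h4, hz]; linarith
    have h6 := norm_sub_eq_of_lt _ _ h5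
    have h7 : Z (b + 5 ^ (j + 2) * (t : K)) - Z b - Z b = Z (b + 5 ^ (j + 2) * (t : K)) - 2 * Z b := by
      ring
    -- use the ultrametric inequality in the other direction
    have h8 : Z (b + 5 ^ (j + 2) * (t : K))
        = (Z (b + 5 ^ (j + 2) * (t : K)) - Z b) - (-(Z b)) := by ring
    rw [h8, norm_sub_eq_of_lt _ _ (by rw [norm_neg]; exact h5), norm_neg, hz]
  let φ : ℤ_[5] → ℤ_[5] := fun t => ⟨Y j (b + 5 ^ (j + 2) * (t : K)), Y_le _ (hmem t).2.2 j⟩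
  have hφ : Isometry φ := by
    apply Isometry.of_dist_eq
    intro s t
    rw [dist_eq_norm, dist_eq_norm, PadicInt.norm_def, PadicInt.norm_def]
    push_cast
    show ‖Y j (b + 5 ^ (j + 2) * (s : K)) - Y j (b + 5 ^ (j + 2) * (t : K))‖ = ‖(s : K) - (t : K)‖
    have e : (b + 5 ^ (j + 2) * (s : K)) - (b + 5 ^ (j + 2) * (t : K))
        = 5 ^ (j + 2) * ((s : K) - t) := by ring
    have hst : ‖(s : K) - t‖ ≤ 1 := by
      have := PadicInt.norm_le_one (s - t)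
      rw [PadicInt.norm_def] at this
      push_cast at this
      exact this
    rw [Y_sub _ _ (hmem s).1 (hmem t).1 (hmem s).2.2 (hmem t).2.2 j, e, norm_mul, hpow]
    · rw [← mul_assoc, ← mul_pow]; norm_num
    · rw [e, norm_mul, hpow]
      calc _ ≤ ((1 : ℝ) / 5) ^ (j + 2) * 1 := by gcongr
        _ = _ := by ring
  obtain ⟨t, ht⟩ := isometry_surj φ hφ 0
  refine ⟨b + 5 ^ (j + 2) * (t : K), (hmem t).1, (hmem t).2.1, (hmem t).2.2, ?_⟩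
  have := congrArg (fun u : ℤ_[5] => (u : K)) ht
  simpa [φ] using this

theorem eval_H (x : K) (j : ℕ) :
    ∃ l : ℕ, 4 * l + 1 = 21 * 5 ^ j ∧
      ((H j).map (Int.castRingHom K)).eval x = 5 ^ l * Y j x := by
  have hG : (G.map (Int.castRingHom K)).eval x = 5 * Z x := by
    simp only [G, Polynomial.map_sub, Polynomial.map_pow, map_X, eval_sub, eval_pow, eval_X, Z]
    ring
  induction j with
  | zero =>
    refine ⟨5, by norm_num, ?_⟩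
    simp only [H, Polynomial.map_sub, Polynomial.map_pow, map_C, eval_sub, eval_pow, eval_C, hG]
    show _ = 5 ^ 5 * ((W x - 1) / 5)
    unfold W
    push_cast
    simp
    ring
  | succ j ih =>
    obtain ⟨l, hl, hev⟩ := ih
    set N : ℕ := 5 ^ j with hN
    have hNpos : 0 < N := by positivity
    refine ⟨5 * l + 1, ?_, ?_⟩
    · rw [pow_succ, ← hN]; omega
    simp only [H, Polynomial.map_sub, Polynomial.map_pow, map_C, eval_sub, eval_pow, eval_C,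
      Polynomial.map_mul, eval_mul, hG, hev]
    show _ = 5 ^ (5 * l + 1) * (((Y j x) ^ 5 - (W x) ^ (3 * 5 ^ j) * Y j x) / 5)
    rw [← hN]
    have e1 : (Int.castRingHom K) (5 ^ (9 * N - 1)) = 5 ^ (9 * N - 1) := by simp
    have e2 : (5 : K) ^ (9 * N - 1) * (5 * Z x) ^ (12 * N) * (5 ^ l)
        = 5 ^ (5 * l) * (W x) ^ (3 * N) := by
      unfold W
      rw [mul_pow, ← pow_mul, show 4 * (3 * N) = 12 * N by ring]
      rw [show 5 * l = (9 * N - 1) + 12 * N + l by omega, pow_add, pow_add]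
      ring
    rw [e1, pow_succ]
    linear_combination (-(Y j x)) * e2

end Pool.Agent.Lib.MP_f15a68_nt
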