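import Mathlib

/-!
The explicit family `H j` of monic integer polynomials, of degree `20 * 5 ^ j`, and its
archimedean size on the unit circle.
-/

open Polynomial

namespace Pool.Agent.Lib.MP_f15a68_nt

/-- `G = X ^ 5 - X`. -/
noncomputable def G : ℤ[X] := X ^ 5 - X

/-- The family `H`. -/
noncomputable def H : ℕ → ℤ[X]
  | 0 => G ^ 4 - C (5 ^ 4)
  | (j + 1) => H j ^ 5 - C (5 ^ (9 * 5 ^ j - 1)) * G ^ (12 * 5 ^ j) * H j

theorem G_monic : G.Monic := by
  unfold G
  monicity!

theorem G_natDegree : G.natDegree = 5 := by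
  unfold G
  compute_degree!

theorem H_monic_deg (j : ℕ) : (H j).Monic ∧ (H j).natDegree = 20 * 5 ^ j := by
  induction j with
  | zero =>
    have h1 : (G ^ 4).Monic := G_monic.pow 4
    have h2 : (G ^ 4).natDegree = 20 := by rw [G_monic.natDegree_pow, G_natDegree]
    have hlt : (C ((5 : ℤ) ^ 4)).degree < (G ^ 4).degree := by
      rw [degree_eq_natDegree h1.ne_zero, h2]
      exact lt_of_le_of_lt degree_C_le (by norm_num)
    constructor
    · exact h1.sub_of_left hlt
    · have : (G ^ 4 - C ((5 : ℤ) ^ 4)).degree = (G ^ 4).degree := degree_sub_eq_left_of_degree_lt hlt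
      have h3 := natDegree_eq_of_degree_eq this
      rw [H, h3, h2]
      norm_num
  | succ j ih =>
    obtain ⟨hm, hd⟩ := ih
    have h1 : (H j ^ 5).Monic := hm.pow 5
    have h2 : (H j ^ 5).natDegree = 20 * 5 ^ (j + 1) := by
      rw [hm.natDegree_pow, hd]; ring
    have hlt : (C ((5 : ℤ) ^ (9 * 5 ^ j - 1)) * G ^ (12 * 5 ^ j) * H j).degree
        < (H j ^ 5).degree := by
      rw [degree_eq_natDegree h1.ne_zero, h2]
      refine lt_of_le_of_lt degree_le_natDegree ?_
      have h5 : 0 < 5 ^ j := by positivity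
      have : (C ((5 : ℤ) ^ (9 * 5 ^ j - 1)) * G ^ (12 * 5 ^ j) * H j).natDegree
          ≤ 80 * 5 ^ j := by
        refine (natDegree_mul_le).trans ?_
        rw [hd]
        have := natDegree_C_mul_le ((5 : ℤ) ^ (9 * 5 ^ j - 1)) (G ^ (12 * 5 ^ j))
        rw [G_monic.natDegree_pow, G_natDegree] at this
        omega
      have h6 : (20 * 5 ^ (j + 1) : ℕ) = 100 * 5 ^ j := by ring
      rw [h6]
      exact_mod_cast lt_of_le_of_lt this (by omega)
    constructor
    · exact h1.sub_of_left hlt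
    · have : (H j ^ 5 - C ((5 : ℤ) ^ (9 * 5 ^ j - 1)) * G ^ (12 * 5 ^ j) * H j).degree
          = (H j ^ 5).degree := degree_sub_eq_left_of_degree_lt hlt
      have h3 := natDegree_eq_of_degree_eq this
      rw [H, h3, h2]

theorem H_monic (j : ℕ) : (H j).Monic := (H_monic_deg j).1

theorem H_natDegree (j : ℕ) : (H j).natDegree = 20 * 5 ^ j := (H_monic_deg j).2

/-- Size on the unit circle. -/
theorem H_bound (z : ℂ) (hz : ‖z‖ = 1) (j : ℕ) :
    ‖((H j).map (Int.castRingHom ℂ)).eval z‖ ≤ (9 / 10) * 713 ^ (5 ^ j) := by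
  have hG : ‖(G.map (Int.castRingHom ℂ)).eval z‖ ≤ 2 := by
    simp only [G, Polynomial.map_sub, Polynomial.map_pow, map_X, eval_sub, eval_pow, eval_X]
    refine (norm_sub_le _ _).trans ?_
    rw [norm_pow, hz]; norm_num
  induction j with
  | zero =>
    simp only [H, Polynomial.map_sub, Polynomial.map_pow, map_C, eval_sub, eval_pow, eval_C]
    refine (norm_sub_le _ _).trans ?_
    rw [norm_pow]
    have : ‖(G.map (Int.castRingHom ℂ)).eval z‖ ^ 4 ≤ 2 ^ 4 := by gcongr
    have h2 : ‖((Int.castRingHom ℂ) (5 ^ 4))‖ = 625 := by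
      norm_num
    rw [h2]
    norm_num at this ⊢
    linarith
  | succ j ih =>
    set N : ℕ := 5 ^ j with hN
    have hNpos : 0 < N := by positivity
    simp only [H, Polynomial.map_sub, Polynomial.map_pow, map_C, eval_sub, eval_pow, eval_C,
      Polynomial.map_mul, eval_mul]
    rw [← hN]
    set h := ‖((H j).map (Int.castRingHom ℂ)).eval z‖ with hh
    set g := ‖(G.map (Int.castRingHom ℂ)).eval z‖ with hg
    have e1 : ‖(Int.castRingHom ℂ) (5 ^ (9 * N - 1))‖ = 5 ^ (9 * N - 1) := by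
      simp
    calc _ ≤ h ^ 5 + 5 ^ (9 * N - 1) * g ^ (12 * N) * h := by
          refine (norm_sub_le _ _).trans ?_
          rw [norm_pow, norm_mul, norm_mul, norm_pow, e1]
      _ ≤ ((9 / 10) * 713 ^ N) ^ 5 + 5 ^ (9 * N - 1) * 2 ^ (12 * N) * ((9 / 10) * 713 ^ N) := by
          gcongr
      _ = ((9 / 10) * 713 ^ N) ^ 5 + (1 / 5) * (8000000000 ^ N) * ((9 / 10) * 713 ^ N) := by
          have : (5 : ℝ) ^ (9 * N - 1) * 2 ^ (12 * N) = (1 / 5) * (8000000000 ^ N) := by
            have e2 : (5 : ℝ) ^ (9 * N) = 5 ^ (9 * N - 1) * 5 := by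
              rw [← pow_succ]; congr 1; omega
            have e3 : (8000000000 : ℝ) ^ N = 5 ^ (9 * N) * 2 ^ (12 * N) := by
              rw [pow_mul, pow_mul, ← mul_pow]; norm_num
            rw [e3, e2]; ring
          rw [this]
      _ ≤ ((9 / 10) * 713 ^ N) ^ 5 + (1 / 5) * ((713 ^ 4) ^ N) * ((9 / 10) * 713 ^ N) := by
          gcongr
          norm_num
      _ ≤ (9 / 10) * 713 ^ (5 ^ (j + 1)) := by
          have e4 : (713 : ℝ) ^ (5 ^ (j + 1)) = (713 ^ N) ^ 5 := by
            rw [← pow_mul, hN, pow_succ]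
          have e5 : ((713 : ℝ) ^ 4) ^ N = (713 ^ N) ^ 4 := by
            rw [← pow_mul, ← pow_mul, mul_comm]
          rw [e4, e5]
          have hp : (0 : ℝ) < (713 ^ N) ^ 5 := by positivity
          nlinarith

/-- Mahler measure bounded by the sup norm on the unit circle. -/
theorem mahlerMeasure_le_of_bound (P : ℂ[X]) (B : ℝ) (hB : 1 ≤ B)
    (h : ∀ z : ℂ, ‖z‖ = 1 → ‖P.eval z‖ ≤ B) : P.mahlerMeasure ≤ B := by
  by_cases hP : P = 0
  · rw [hP, mahlerMeasure_zero]; linarith
  have h1 : P.logMahlerMeasure ≤ Real.log B := by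
    unfold logMahlerMeasure
    apply Real.circleAverage_mono_on_of_le_circle
    · exact (analyticOnNhd_id.aeval_polynomial P).meromorphicOn.circleIntegrable_log_norm
    · intro x hx
      have hx' : ‖x‖ = 1 := by simpa using hx
      rcases eq_or_ne (P.eval x) 0 with h0 | h0
      · rw [h0]; simp [Real.log_nonneg hB]
      · exact Real.log_le_log (norm_pos_iff.mpr h0) (h x hx')
  unfold mahlerMeasure
  rw [if_pos hP]
  calc Real.exp P.logMahlerMeasure ≤ Real.exp (Real.log B) := Real.exp_le_exp.mpr h1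
    _ = B := Real.exp_log (by linarith)

theorem H_mahler (j : ℕ) :
    ((H j).map (Int.castRingHom ℂ)).mahlerMeasure ≤ 713 ^ (5 ^ j) := by
  refine mahlerMeasure_le_of_bound _ _ (one_le_pow₀ (by norm_num)) ?_
  intro z hz
  refine (H_bound z hz j).trans ?_
  have : (0 : ℝ) < 713 ^ (5 ^ j) := by positivity
  linarith

end Pool.Agent.Lib.MP_f15a68_nt
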