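import Pool.Agent.Lib.MP_f15a68_nt.Split

/-!
Infinitely many totally `5`-adic algebraic integers of height below any `c > log 713 / 20`.
-/

open Polynomial

namespace Pool.Agent.Lib.MP_f15a68_nt

/-- the algebraic numbers -/
abbrev L := AlgebraicClosure ℚ

instance isAlg : Algebra.IsAlgebraic ℚ L := by
  have h := AlgebraicClosure.isAlgebraic ℚ
  have e : (DivisionRing.toRatAlgebra : Algebra ℚ (AlgebraicClosure ℚ)) =
    AlgebraicClosure.instAlgebra ℚ := Subsingleton.elim _ _
  rw [← e] at h
  exact h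

instance isInt : Algebra.IsIntegral ℚ L := by
  rw [← Algebra.isAlgebraic_iff_isIntegral]
  exact isAlg

/-- Mahler measure of a monic rational polynomial is at least one. -/
theorem one_le_mahler {m : ℚ[X]} (hm : m.Monic) :
    1 ≤ (m.map (algebraMap ℚ ℂ)).mahlerMeasure := by
  apply one_le_mahlerMeasure_of_one_le_norm_leadingCoeff
  rw [(hm.map (algebraMap ℚ ℂ)).leadingCoeff, norm_one]

theorem log_mahler_mul {m n : ℚ[X]} (hm : m.Monic) (hn : n.Monic) :
    Real.log (((m * n).map (algebraMap ℚ ℂ)).mahlerMeasure) =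
      Real.log ((m.map (algebraMap ℚ ℂ)).mahlerMeasure) +
      Real.log ((n.map (algebraMap ℚ ℂ)).mahlerMeasure) := by
  rw [Polynomial.map_mul, mahlerMeasure_mul, Real.log_mul]
  · have := one_le_mahler hm; linarith
  · have := one_le_mahler hn; linarith

/-- The height of an algebraic integer, as in the frozen statement. -/
noncomputable def ht (α : L) : ℝ :=
  Real.log (((minpoly ℚ α).map (algebraMap ℚ ℂ)).mahlerMeasure) / ((minpoly ℚ α).natDegree : ℝ)

theorem ht_nonneg (α : L) : 0 ≤ ht α := by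
  have halg : IsIntegral ℚ α := Algebra.IsIntegral.isIntegral α
  exact div_nonneg (Real.log_nonneg (one_le_mahler (minpoly.monic halg))) (Nat.cast_nonneg _)

theorem log_mahler_prod_ge (c : ℝ) (s : Multiset ℚ[X])
    (hs : ∀ m ∈ s, m.Monic ∧
      c * m.natDegree ≤ Real.log ((m.map (algebraMap ℚ ℂ)).mahlerMeasure)) :
    s.prod.Monic ∧
      c * s.prod.natDegree ≤ Real.log ((s.prod.map (algebraMap ℚ ℂ)).mahlerMeasure) := by
  induction s using Multiset.induction_on with
  | empty => simp [monic_one]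
  | cons a s ih =>
    obtain ⟨h1, h2⟩ := hs a (Multiset.mem_cons_self a s)
    obtain ⟨h3, h4⟩ := ih (fun m hm => hs m (Multiset.mem_cons_of_mem hm))
    rw [Multiset.prod_cons]
    refine ⟨h1.mul h3, ?_⟩
    rw [log_mahler_mul h1 h3, h1.natDegree_mul h3]
    push_cast
    linarith

theorem log_HQ (j : ℕ) :
    Real.log (((HQ j).map (algebraMap ℚ ℂ)).mahlerMeasure) ≤ 5 ^ j * Real.log 713 := by
  have h1 := one_le_mahler (HQ_monic j)
  have h2 := H_mahler j
  rw [HQ_map_C] at h1 ⊢
  calc _ ≤ Real.log (713 ^ (5 ^ j)) := Real.log_le_log (by linarith) h2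
    _ = 5 ^ j * Real.log 713 := by rw [Real.log_pow]; push_cast; ring

theorem isIntegral_of_root {α : L} {j : ℕ} (h : aeval α (HQ j) = 0) : IsIntegral ℤ α := by
  refine ⟨H j, H_monic j, ?_⟩
  rw [HQ, aeval_def, eval₂_map] at h
  rw [← h]
  congr 1

/-- The main construction. -/
theorem infinite_small (c : ℝ) (hc : Real.log 713 / 20 < c) :
    Set.Infinite {α : L | IsIntegral ℤ α ∧
      ((minpoly ℚ α).map (algebraMap ℚ ℚ_[5])).roots.card = (minpoly ℚ α).natDegree ∧
      ht α < c} := by
  classical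
  intro hfin
  set T : Set L := {α : L | IsIntegral ℤ α ∧
      ((minpoly ℚ α).map (algebraMap ℚ ℚ_[5])).roots.card = (minpoly ℚ α).natDegree ∧
      ht α < c} with hT
  set c1 : ℝ := Real.log 713 / 20 with hc1
  have hc1pos : 0 < c1 := by
    have : 0 < Real.log 713 := Real.log_pos (by norm_num)
    positivity
  have hcpos : 0 < c := by linarith
  set t : ℕ := hfin.toFinset.card with ht'
  -- choose j large
  obtain ⟨j, hj⟩ : ∃ j : ℕ, c * t / (c - c1) < 5 ^ j :=
    pow_unbounded_of_one_lt _ (by norm_num)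
  have hj' : c * t < (c - c1) * (20 * 5 ^ j) := by
    rw [div_lt_iff₀ (by linarith)] at hj
    have : (0 : ℝ) < (c - c1) * 5 ^ j := by
      have : 0 < c - c1 := by linarith
      positivity
    nlinarith
  have hF : HQ j ≠ 0 := (HQ_monic j).ne_zero
  set nf := UniqueFactorizationMonoid.normalizedFactors (HQ j) with hnf
  have hprod : nf.prod = HQ j := by
    rw [hnf, UniqueFactorizationMonoid.prod_normalizedFactors_eq hF]
    exact (HQ_monic j).normalize_eq_self
  have hmem : ∀ m ∈ nf, Irreducible m ∧ m.Monic ∧ m ∣ HQ j := by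
    intro m hm
    have h1 := UniqueFactorizationMonoid.irreducible_of_normalized_factor m hm
    have h2 := UniqueFactorizationMonoid.normalize_normalized_factor m hm
    refine ⟨h1, ?_, UniqueFactorizationMonoid.dvd_of_mem_normalizedFactors hm⟩
    rw [← h2]
    exact monic_normalize h1.ne_zero
  let small : ℚ[X] → Prop := fun m =>
    Real.log ((m.map (algebraMap ℚ ℂ)).mahlerMeasure) < c * m.natDegree
  set s1 := nf.filter small with hs1
  set s2 := nf.filter (fun m => ¬ small m) with hs2
  have hsplit : s1.prod * s2.prod = HQ j := by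
    rw [← Multiset.prod_add, hs1, hs2, Multiset.filter_add_not, hprod]
  have hm1 : s1.prod.Monic := by
    have h := monic_multiset_prod_of_monic s1 id
      (fun m hm => (hmem m (Multiset.mem_of_mem_filter hm)).2.1)
    simpa using h
  obtain ⟨hm2, hge⟩ := log_mahler_prod_ge c s2 (by
    intro m hm
    refine ⟨(hmem m (Multiset.mem_of_mem_filter hm)).2.1, ?_⟩
    have := (Multiset.mem_filter.mp hm).2
    exact not_lt.mp this)
  -- roots of `s1.prod` all lie in `T`
  have hsep : s1.prod.Separable := (HQ_separable j).of_dvd ⟨s2.prod, hsplit.symm⟩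
  have hdeg1 : s1.prod.natDegree ≤ t := by
    have hspl : (s1.prod.map (algebraMap ℚ L)).Splits := IsAlgClosed.splits _
    have hcard := splits_iff_card_roots.mp hspl
    have hnodup : (s1.prod.map (algebraMap ℚ L)).roots.Nodup :=
      nodup_roots (hsep.map)
    rw [natDegree_map] at hcard
    rw [← hcard, ← Multiset.toFinset_card_of_nodup hnodup, ht']
    apply Finset.card_le_card
    intro α hα
    rw [Multiset.mem_toFinset, mem_roots ((hm1.map _).ne_zero), IsRoot.def, eval_map_algebraMap]
      at hα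
    rw [Set.Finite.mem_toFinset, hT]
    have h1 : ∃ m ∈ s1, aeval α m = 0 := by
      have h2 : (s1.map (fun m => aeval α m)).prod = 0 := by
        rw [← hα, map_multiset_prod]
      rw [Multiset.prod_eq_zero_iff, Multiset.mem_map] at h2
      exact h2
    obtain ⟨m, hm, hα0⟩ := h1
    have hm' := hmem m (Multiset.mem_of_mem_filter hm)
    have hmin : m = minpoly ℚ α := minpoly.eq_of_irreducible_of_monic hm'.1 hα0 hm'.2.1
    have hsmall : small m := (Multiset.mem_filter.mp hm).2
    have hdvd : m ∣ HQ j := hm'.2.2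
    refine ⟨?_, ?_, ?_⟩
    · apply isIntegral_of_root (j := j)
      obtain ⟨q, hq⟩ := hdvd
      rw [hq, map_mul, hα0, zero_mul]
    · rw [← hmin]
      have h3 : (m.map (algebraMap ℚ K)).Splits := by
        refine Splits.of_dvd (H_splits_K j) ((H_monic j).map _).ne_zero ?_
        rw [← HQ_map_K]
        exact Polynomial.map_dvd _ hdvd
      have h4 := splits_iff_card_roots.mp h3
      rw [natDegree_map] at h4
      exact h4
    · unfold ht
      rw [← hmin]
      have hpos : 0 < m.natDegree := hm'.1.natDegree_pos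
      rw [div_lt_iff₀ (by exact_mod_cast hpos)]
      exact hsmall
  have hdeg : s1.prod.natDegree + s2.prod.natDegree = 20 * 5 ^ j := by
    rw [← hm1.natDegree_mul hm2, hsplit, HQ_natDegree]
  have hlog : Real.log (((HQ j).map (algebraMap ℚ ℂ)).mahlerMeasure) =
      Real.log ((s1.prod.map (algebraMap ℚ ℂ)).mahlerMeasure) +
      Real.log ((s2.prod.map (algebraMap ℚ ℂ)).mahlerMeasure) := by
    rw [← hsplit, log_mahler_mul hm1 hm2]
  have h1 := log_HQ j
  have h2 : 0 ≤ Real.log ((s1.prod.map (algebraMap ℚ ℂ)).mahlerMeasure) :=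
    Real.log_nonneg (one_le_mahler hm1)
  have h3 : (s2.prod.natDegree : ℝ) = 20 * 5 ^ j - s1.prod.natDegree := by
    have : ((s1.prod.natDegree + s2.prod.natDegree : ℕ) : ℝ) = 20 * 5 ^ j := by
      rw [hdeg]; push_cast; ring
    push_cast at this
    linarith
  have h4 : (s1.prod.natDegree : ℝ) ≤ t := by exact_mod_cast hdeg1
  have h5 : c * (20 * 5 ^ j - t) ≤ 5 ^ j * Real.log 713 := by
    calc c * (20 * 5 ^ j - t) ≤ c * s2.prod.natDegree := by
          rw [h3]; gcongr
      _ ≤ _ := by linarith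
  have h6 : 5 ^ j * Real.log 713 = c1 * (20 * 5 ^ j) := by rw [hc1]; ring
  nlinarith

/-- numerical facts -/
theorem log713 : Real.log 713 / 20 < 33 / 100 := by
  have h1 : Real.log 713 < 33 / 5 := by
    rw [Real.log_lt_iff_lt_exp (by norm_num)]
    have h2 : (2.7182818283 : ℝ) < Real.exp 1 := Real.exp_one_gt_d9
    have h3 : (713 : ℝ) ^ 5 < Real.exp (33 / 5) ^ 5 := by
      rw [← Real.exp_nat_mul]
      have e : ((5 : ℕ) : ℝ) * (33 / 5) = (33 : ℕ) * 1 := by norm_num
      rw [e, Real.exp_nat_mul]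
      calc (713 : ℝ) ^ 5 < 2.7182818283 ^ 33 := by norm_num
        _ ≤ Real.exp 1 ^ 33 := by gcongr
    exact lt_of_pow_lt_pow_left₀ 5 (Real.exp_pos _).le h3
  linarith

theorem log5 : 8 / 5 < Real.log 5 := by
  rw [Real.lt_log_iff_exp_lt (by norm_num)]
  have h2 : Real.exp 1 < (2.7182818286 : ℝ) := Real.exp_one_lt_d9
  have h3 : Real.exp (8 / 5) ^ 5 < (5 : ℝ) ^ 5 := by
    rw [← Real.exp_nat_mul]
    have e : ((5 : ℕ) : ℝ) * (8 / 5) = (8 : ℕ) * 1 := by norm_num
    rw [e, Real.exp_nat_mul]
    calc Real.exp 1 ^ 8 ≤ 2.7182818286 ^ 8 := by gcongr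
      _ < 5 ^ 5 := by norm_num
  exact lt_of_pow_lt_pow_left₀ 5 (by norm_num) h3

end Pool.Agent.Lib.MP_f15a68_nt
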