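import Pool.Agent.Lib.MP_f15a68_nt.Padic

/-!
The polynomials `H j` split completely over `ℚ_[5]` with distinct roots.
-/

open Polynomial

namespace Pool.Agent.Lib.MP_f15a68_nt

/-- residues `r` mod `25` with `(r ^ 5 - r) / 5` prime to `5`. -/
def R : Finset ℕ := (Finset.range 25).filter (fun r => ¬ (25 ∣ (r ^ 5 - r)))

theorem card_R : R.card = 20 := by decide +kernel

theorem mem_R (r : ℕ) (hr : r ∈ R) : r < 25 ∧ ¬ ((25 : ℤ) ∣ (r : ℤ) ^ 5 - r) := by
  simp only [R, Finset.mem_filter, Finset.mem_range] at hr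
  refine ⟨hr.1, fun h => hr.2 ?_⟩
  have h1 : r ≤ r ^ 5 := Nat.le_self_pow (by norm_num) r
  have h2 : ((r ^ 5 - r : ℕ) : ℤ) = (r : ℤ) ^ 5 - r := by
    rw [Nat.cast_sub h1]; push_cast; ring
  rw [← h2] at h
  exact_mod_cast h

theorem Z_unit (r k : ℕ) (hr : r ∈ R) : ‖Z (((r + 25 * k : ℕ) : K))‖ = 1 := by
  set b : ℕ := r + 25 * k with hb
  have hb1 : ‖(b : K)‖ ≤ 1 := by simpa using Padic.norm_int_le_one (p := 5) (b : ℤ)
  apply norm_gt_eq_one _ (Z_le _ hb1)
  by_contra hcon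
  push Not at hcon
  unfold Z at hcon
  rw [norm_div, norm5, div_le_iff₀ (by norm_num)] at hcon
  have h1 : ‖(((b : ℤ) ^ 5 - b : ℤ) : K)‖ ≤ (5 : ℝ) ^ (-(2 : ℕ) : ℤ) := by
    push_cast
    refine hcon.trans ?_
    norm_num
  have h2 := (Padic.norm_int_le_pow_iff_dvd (p := 5) ((b : ℤ) ^ 5 - b) 2).mp (by
    simpa using h1)
  have h3 : (25 : ℤ) ∣ (b : ℤ) ^ 5 - b := by
    have : ((5 : ℤ) ^ 2) = 25 := by norm_num
    rw [← this]; exact_mod_cast h2
  apply (mem_R r hr).2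
  have h4 : (25 : ℤ) ∣ (b : ℤ) ^ 5 - (r : ℤ) ^ 5 := by
    refine dvd_trans ?_ (sub_dvd_pow_sub_pow (b : ℤ) r 5)
    refine ⟨k, ?_⟩
    rw [hb]; push_cast; ring
  have h5 : (25 : ℤ) ∣ (b : ℤ) - r := ⟨k, by rw [hb]; push_cast; ring⟩
  have h6 : (r : ℤ) ^ 5 - r = ((b : ℤ) ^ 5 - b) - ((b : ℤ) ^ 5 - (r : ℤ) ^ 5) + ((b : ℤ) - r) := by
    ring
  rw [h6]
  exact dvd_add (dvd_sub h3 h4) h5

theorem roots_card (j : ℕ) :
    ∃ S : Finset K, S.card = 20 * 5 ^ j ∧
      ∀ x ∈ S, ((H j).map (Int.castRingHom K)).eval x = 0 := by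
  classical
  have hex : ∀ q : ℕ × ℕ, ∃ x : K, q.1 ∈ R →
      (‖x - ((q.1 + 25 * q.2 : ℕ) : K)‖ ≤ (1 / 5) ^ (j + 2) ∧
        ((H j).map (Int.castRingHom K)).eval x = 0) := by
    intro q
    by_cases hq : q.1 ∈ R
    · obtain ⟨x, -, hx2, -, hx4⟩ := exists_root_near j ((q.1 + 25 * q.2 : ℕ) : K)
        (by simpa using Padic.norm_int_le_one (p := 5) ((q.1 + 25 * q.2 : ℕ) : ℤ))
        (Z_unit q.1 q.2 hq)
      refine ⟨x, fun _ => ⟨hx2, ?_⟩⟩
      obtain ⟨l, -, hl⟩ := eval_H x j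
      rw [hl, hx4, mul_zero]
    · exact ⟨0, fun h => absurd h hq⟩
  choose ρ hρ using hex
  refine ⟨(R ×ˢ Finset.range (5 ^ j)).image ρ, ?_, ?_⟩
  · rw [Finset.card_image_of_injOn, Finset.card_product, card_R, Finset.card_range]
    rintro ⟨r, k⟩ hrk ⟨r', k'⟩ hrk' heq
    simp only [Finset.coe_product, Set.mem_prod, Finset.mem_coe, Finset.mem_range] at hrk hrk'
    have h1 := (hρ (r, k) hrk.1).1
    have h2 := (hρ (r', k') hrk'.1).1
    simp only at heq h1 h2
    rw [← heq] at h2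
    set b : ℕ := r + 25 * k with hb
    set b' : ℕ := r' + 25 * k' with hb'
    have h3 : ‖(((b : ℤ) - b' : ℤ) : K)‖ ≤ (1 / 5) ^ (j + 2) := by
      have e : (((b : ℤ) - b' : ℤ) : K) = (ρ (r, k) - b') - (ρ (r, k) - b) := by
        push_cast; ring
      rw [e]
      exact (sub_le_max _ _).trans (max_le h2 h1)
    have h4 : (((5 : ℕ) ^ (j + 2) : ℕ) : ℤ) ∣ (b : ℤ) - b' := by
      apply (Padic.norm_int_le_pow_iff_dvd (p := 5) ((b : ℤ) - b') (j + 2)).mp
      refine h3.trans ?_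
      rw [zpow_neg, zpow_natCast, one_div, inv_pow]
      norm_num
    have hr := (mem_R r hrk.1).1
    have hr' := (mem_R r' hrk'.1).1
    have hb1 : b < 5 ^ (j + 2) := by
      have : 5 ^ (j + 2) = 25 * 5 ^ j := by ring
      omega
    have hb1' : b' < 5 ^ (j + 2) := by
      have : 5 ^ (j + 2) = 25 * 5 ^ j := by ring
      omega
    have h5 : (b : ℤ) - b' = 0 := by
      apply Int.eq_zero_of_abs_lt_dvd h4
      rw [abs_lt]
      constructor <;> omega
    have h6 : b = b' := by omega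
    have h7 : r = r' := by omega
    have h8 : k = k' := by omega
    rw [h7, h8]
  · intro x hx
    simp only [Finset.mem_image, Finset.mem_product, Prod.exists] at hx
    obtain ⟨r, k, ⟨hr, -⟩, rfl⟩ := hx
    exact (hρ (r, k) hr).2

theorem H_roots_K (j : ℕ) :
    ((H j).map (Int.castRingHom K)).roots.card = 20 * 5 ^ j ∧
      ((H j).map (Int.castRingHom K)).roots.Nodup := by
  classical
  obtain ⟨S, hS, hroot⟩ := roots_card j
  have hne : (H j).map (Int.castRingHom K) ≠ 0 := ((H_monic j).map _).ne_zero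
  have hdeg : ((H j).map (Int.castRingHom K)).natDegree = 20 * 5 ^ j := by
    rw [(H_monic j).natDegree_map, H_natDegree]
  have hsub : S ⊆ ((H j).map (Int.castRingHom K)).roots.toFinset := by
    intro x hx
    rw [Multiset.mem_toFinset, mem_roots hne]
    exact hroot x hx
  have h1 := Finset.card_le_card hsub
  have h2 := Multiset.toFinset_card_le ((H j).map (Int.castRingHom K)).roots
  have h3 := card_roots' ((H j).map (Int.castRingHom K))
  rw [hdeg] at h3
  rw [hS] at h1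
  refine ⟨by omega, ?_⟩
  rw [← Multiset.toFinset_card_eq_card_iff_nodup]
  omega

theorem H_splits_K (j : ℕ) : ((H j).map (Int.castRingHom K)).Splits := by
  rw [splits_iff_card_roots, (H_roots_K j).1, (H_monic j).natDegree_map, H_natDegree]

/-- `H j` over `ℚ`. -/
noncomputable def HQ (j : ℕ) : ℚ[X] := (H j).map (Int.castRingHom ℚ)

theorem HQ_monic (j : ℕ) : (HQ j).Monic := (H_monic j).map _

theorem HQ_natDegree (j : ℕ) : (HQ j).natDegree = 20 * 5 ^ j := by
  rw [HQ, (H_monic j).natDegree_map, H_natDegree]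

theorem HQ_map_K (j : ℕ) :
    (HQ j).map (algebraMap ℚ K) = (H j).map (Int.castRingHom K) := by
  rw [HQ, Polynomial.map_map]
  congr 1

theorem HQ_map_C (j : ℕ) :
    (HQ j).map (algebraMap ℚ ℂ) = (H j).map (Int.castRingHom ℂ) := by
  rw [HQ, Polynomial.map_map]
  congr 1

theorem HQ_separable (j : ℕ) : (HQ j).Separable := by
  rw [← separable_map (algebraMap ℚ K), HQ_map_K]
  exact (nodup_roots_iff_of_splits ((H_monic j).map _).ne_zero (H_splits_K j)).mp
    (H_roots_K j).2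

end Pool.Agent.Lib.MP_f15a68_nt
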